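import Mathlib

/-!
# Strong chromatic number versus biclique number

For every `u` there is a finite simple graph whose biclique number is `9 u + 3` and whose
strong chromatic number is at least `10 u + 4`.
-/

namespace Pool.Agent.Results.MP_44775e_co.StrongBiclique

open SimpleGraph

/-- The biclique number: the largest value of `a + b` with `a, b ≥ 1` such that `G` contains the
complete bipartite graph `K_{a,b}` as a (not necessarily induced) subgraph; it is `1` for a graph
without edges. -/
noncomputable def bicliqueNumber {V : Type} (G : SimpleGraph V) : ℕ :=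
  sSup ({1} ∪ {m : ℕ | ∃ a b : ℕ, 1 ≤ a ∧ 1 ≤ b ∧ a + b = m ∧
    (completeBipartiteGraph (Fin a) (Fin b)).IsContained G})

/-- `numParts n k = ⌈n / k⌉`. -/
def numParts (n k : ℕ) : ℕ := (n + k - 1) / k

/-- `addCliques H p` is obtained from `H` by adding all the edges inside each fibre of `p`. -/
def addCliques {W ι : Type} (H : SimpleGraph W) (p : W → ι) : SimpleGraph W :=
  H ⊔ SimpleGraph.fromRel (fun x y => p x = p y)

/-- `G` is strongly `k`-colourable: for every partition of the vertex set of `G` together with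
`k * ⌈n / k⌉ - n` new isolated vertices into `⌈n / k⌉` sets of size `k`, given as the fibres of a
map `p`, the graph obtained by adding all edges inside each part is properly `k`-colourable. -/
def StronglyColorable {V : Type} [Fintype V] (G : SimpleGraph V) (k : ℕ) : Prop :=
  ∀ p : V ⊕ Fin (k * numParts (Fintype.card V) k - Fintype.card V) →
      Fin (numParts (Fintype.card V) k),
    (∀ i, (p ⁻¹' {i}).ncard = k) →
      (addCliques (G ⊕g (⊥ : SimpleGraph
        (Fin (k * numParts (Fintype.card V) k - Fintype.card V)))) p).Colorable k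

/-- The strong chromatic number: the least positive `k` such that `G` is strongly
`k`-colourable. -/
noncomputable def strongChromaticNumber {V : Type} [Fintype V] (G : SimpleGraph V) : ℕ :=
  sInf {k : ℕ | 0 < k ∧ StronglyColorable G k}

/-! ### Basic facts about `numParts` -/

lemma le_mul_numParts (n k : ℕ) (hk : 0 < k) : n ≤ k * numParts n k := by
  unfold numParts
  have h := Nat.lt_mul_div_succ (n + k - 1) hk
  have h2 : k * ((n + k - 1) / k + 1) = k * ((n + k - 1) / k) + k := by ring
  omega

lemma le_numParts (n k q : ℕ) (hk : 0 < k) (h : q * k ≤ n) : q ≤ numParts n k := by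
  unfold numParts
  rw [Nat.le_div_iff_mul_le hk]
  omega

/-! ### The key lemma: no independent transversal, no strong colouring -/

theorem not_stronglyColorable {V : Type} [Fintype V] (G : SimpleGraph V) (k : ℕ) (hk : 0 < k)
    {ι : Type} [Fintype ι] (e : ι × Fin k → V) (he : Function.Injective e)
    (hno : ∀ c : ι → Fin k, ∃ i j, i ≠ j ∧ G.Adj (e (i, c i)) (e (j, c j))) :
    ¬ StronglyColorable G k := by
  classical
  intro h
  set n := Fintype.card V with hn
  set m := numParts n k with hm
  have hnm : n ≤ k * m := le_mul_numParts n k hk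
  have hq : Fintype.card ι * k ≤ n := by
    have := Fintype.card_le_of_injective e he
    simpa [Fintype.card_prod] using this
  have hqm : Fintype.card ι ≤ m := le_numParts n k _ hk hq
  let φ : ι → Fin m := fun i => Fin.castLE hqm (Fintype.equivFin ι i)
  have hφ : Function.Injective φ := by
    intro i j hij
    exact (Fintype.equivFin ι).injective (Fin.castLE_injective hqm hij)
  let W := V ⊕ Fin (k * m - n)
  let e' : ι × Fin k → W := fun ix => Sum.inl (e ix)
  have he' : Function.Injective e' := fun a b hab => he (Sum.inl_injective hab)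
  let d : ι × Fin k → Fin m × Fin k := fun ix => (φ ix.1, ix.2)
  have hd : Function.Injective d := by
    rintro ⟨i, x⟩ ⟨j, y⟩ hij
    simp only [d, Prod.mk.injEq] at hij
    exact Prod.ext (hφ hij.1) hij.2
  have hcard : Fintype.card W = Fintype.card (Fin m × Fin k) := by
    simp only [W, Fintype.card_sum, Fintype.card_fin, Fintype.card_prod]
    rw [← hn, Nat.mul_comm m k]
    omega
  -- extend to an equivalence
  obtain ⟨g, hg⟩ : ∃ g : W ≃ Fin m × Fin k, ∀ ix, g (e' ix) = d ix := by
    rcases isEmpty_or_nonempty (ι × Fin k) with hem | hne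
    · exact ⟨Fintype.equivOfCardEq hcard, fun ix => (hem.false ix).elim⟩
    · obtain ⟨ix0⟩ := hne
      let f : W → Fin m × Fin k := Function.extend e' d (fun _ => d ix0)
      have hf : ∀ ix, f (e' ix) = d ix := fun ix => he'.extend_apply d _ ix
      obtain ⟨g, hg⟩ := Finset.exists_equiv_extend_of_card_eq (α := W)
        (t := (Finset.univ : Finset (Fin m × Fin k))) (by rw [hcard, Finset.card_univ])
        (s := Finset.univ.image e') (f := f) (Finset.subset_univ _) (by
          intro a ha b hb hab
          simp only [Finset.coe_image, Finset.coe_univ, Set.image_univ, Set.mem_range] at ha hb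
          obtain ⟨a', rfl⟩ := ha
          obtain ⟨b', rfl⟩ := hb
          rw [hf, hf] at hab
          rw [hd hab])
      refine ⟨g.trans (Equiv.subtypeUnivEquiv (fun x => Finset.mem_univ x)), fun ix => ?_⟩
      have := hg (e' ix) (Finset.mem_image_of_mem _ (Finset.mem_univ _))
      simp only [Equiv.trans_apply, Equiv.subtypeUnivEquiv_apply]
      rw [this, hf]
  let p : W → Fin m := fun w => (g w).1
  have hp : ∀ i, (p ⁻¹' {i}).ncard = k := by
    intro i
    have h1 : p ⁻¹' {i} = g ⁻¹' (Set.range (fun x : Fin k => (i, x))) := by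
      ext w
      simp only [p, Set.mem_preimage, Set.mem_singleton_iff, Set.mem_range]
      constructor
      · intro hw
        exact ⟨(g w).2, by rw [← hw]⟩
      · rintro ⟨x, hx⟩
        rw [← hx]
    rw [h1, Set.ncard_preimage_of_injective_subset_range g.injective (by
      intro y _
      exact ⟨g.symm y, by simp⟩)]
    rw [← Set.image_univ, Set.ncard_image_of_injective _ (by
      intro x y hxy
      simpa using hxy)]
    simp
  obtain ⟨C⟩ := h p hp
  have hsurj : ∀ i : ι, ∃ x : Fin k, C (e' (i, x)) = ⟨0, hk⟩ := by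
    intro i
    have hinj : Function.Injective (fun x : Fin k => C (e' (i, x))) := by
      intro x y hxy
      by_contra hne
      have hadj : (addCliques (G ⊕g (⊥ : SimpleGraph (Fin (k * m - n)))) p).Adj
          (e' (i, x)) (e' (i, y)) := by
        refine Or.inr ?_
        rw [SimpleGraph.fromRel_adj]
        refine ⟨?_, Or.inl ?_⟩
        · intro heq
          have := he' heq
          simp only [Prod.mk.injEq, true_and] at this
          exact hne this
        · simp only [p, hg, d]
      exact C.valid hadj hxy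
    exact (Finite.injective_iff_surjective.mp hinj) ⟨0, hk⟩
  choose c hc using hsurj
  obtain ⟨i, j, _, hadj⟩ := hno c
  have hadj' : (addCliques (G ⊕g (⊥ : SimpleGraph (Fin (k * m - n)))) p).Adj
      (e' (i, c i)) (e' (j, c j)) := by
    refine Or.inl ?_
    simpa [e'] using hadj
  exact C.valid hadj' (by rw [hc, hc])

/-! ### The construction -/

/-- The class of a position `x` in part `q` of a gadget: `some c` stands for the class `c` of the
blown up 7-cycle, `none` for a leaf of the star. -/
def cls (t : ℕ) (q : Fin 3) (x : ℕ) : Option (ZMod 7) :=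
  match q with
  | 0 => if x < t then some 0 else if x < 2 * t then some 2 else none
  | 1 => if x < t then some 4 else if x < 2 * t then some 6 else none
  | 2 => if x < t then some 1 else if x < 2 * t then some 3 else if x < 3 * t then some 5 else none

/-- Vertices: `k` centres, and `k` gadgets, each with three parts of size `k`. -/
abbrev Vert (k : ℕ) : Type := Fin k ⊕ (Fin k × Fin 3 × Fin k)

/-- Adjacency: the centre `i` is joined to all the leaves of gadget `i`; in gadget `i` the classes
form a blow-up of the 7-cycle. -/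
def adj (t k : ℕ) : Vert k → Vert k → Prop
  | Sum.inl _, Sum.inl _ => False
  | Sum.inl i, Sum.inr (j, q, x) => i = j ∧ cls t q x = none
  | Sum.inr (j, q, x), Sum.inl i => i = j ∧ cls t q x = none
  | Sum.inr (i, q, x), Sum.inr (j, r, y) => i = j ∧ ∃ c d : ZMod 7, cls t q x = some c ∧
      cls t r y = some d ∧ (d = c + 1 ∨ c = d + 1)

/-- The counterexample graph. -/
def bigGraph (t k : ℕ) : SimpleGraph (Vert k) where
  Adj := adj t k
  symm := ⟨by
    rintro (i | ⟨i, q, x⟩) (j | ⟨j, r, y⟩) h
    · exact h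
    · exact h
    · exact h
    · obtain ⟨rfl, c, d, h1, h2, h3⟩ := h
      exact ⟨rfl, d, c, h2, h1, h3.symm⟩⟩
  loopless := ⟨by
    rintro (i | ⟨i, q, x⟩) h
    · exact h
    · obtain ⟨_, c, d, h1, h2, h3⟩ := h
      rw [h1] at h2
      have : c = d := by simpa using h2
      subst this
      exact (by decide : ∀ c : ZMod 7, ¬ (c = c + 1 ∨ c = c + 1)) c h3⟩

@[simp] lemma adj_inl_inr {t k : ℕ} (i : Fin k) (v : Fin k × Fin 3 × Fin k) :
    (bigGraph t k).Adj (Sum.inl i) (Sum.inr v) ↔ i = v.1 ∧ cls t v.2.1 v.2.2 = none := Iff.rfl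

@[simp] lemma adj_inr_inl {t k : ℕ} (i : Fin k) (v : Fin k × Fin 3 × Fin k) :
    (bigGraph t k).Adj (Sum.inr v) (Sum.inl i) ↔ i = v.1 ∧ cls t v.2.1 v.2.2 = none := Iff.rfl

@[simp] lemma adj_inl_inl {t k : ℕ} (i j : Fin k) :
    (bigGraph t k).Adj (Sum.inl i) (Sum.inl j) ↔ False := Iff.rfl

lemma adj_inr_inr {t k : ℕ} (v w : Fin k × Fin 3 × Fin k) :
    (bigGraph t k).Adj (Sum.inr v) (Sum.inr w) ↔ v.1 = w.1 ∧ ∃ c d : ZMod 7,
      cls t v.2.1 v.2.2 = some c ∧ cls t w.2.1 w.2.2 = some d ∧ (d = c + 1 ∨ c = d + 1) := Iff.rfl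

/-! ### No independent transversal -/

lemma cls_cases_zero (t x : ℕ) : cls t 0 x = none ∨ cls t 0 x = some 0 ∨ cls t 0 x = some 2 := by
  simp only [cls]; split_ifs <;> simp

lemma cls_cases_one (t x : ℕ) : cls t 1 x = none ∨ cls t 1 x = some 4 ∨ cls t 1 x = some 6 := by
  simp only [cls]; split_ifs <;> simp

lemma cls_cases_two (t x : ℕ) :
    cls t 2 x = none ∨ cls t 2 x = some 1 ∨ cls t 2 x = some 3 ∨ cls t 2 x = some 5 := by
  simp only [cls]; split_ifs <;> simp

/-- Three positions, one in each part of a gadget, none of them a leaf: two are adjacent. -/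
lemma exists_adj_of_cls {t : ℕ} {x y z : ℕ} (hx : cls t 0 x ≠ none) (hy : cls t 1 y ≠ none)
    (hz : cls t 2 z ≠ none) :
    (∃ c d : ZMod 7, cls t 0 x = some c ∧ cls t 1 y = some d ∧ (d = c + 1 ∨ c = d + 1)) ∨
    (∃ c d : ZMod 7, cls t 0 x = some c ∧ cls t 2 z = some d ∧ (d = c + 1 ∨ c = d + 1)) ∨
    (∃ c d : ZMod 7, cls t 1 y = some c ∧ cls t 2 z = some d ∧ (d = c + 1 ∨ c = d + 1)) := by
  rcases cls_cases_zero t x with h0 | h0 | h0
  · exact absurd h0 hx
  all_goals
    rcases cls_cases_one t y with h1 | h1 | h1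
    · exact absurd h1 hy
    all_goals
      rcases cls_cases_two t z with h2 | h2 | h2 | h2
      · exact absurd h2 hz
      all_goals
        first
        | exact Or.inl ⟨_, _, h0, h1, by decide⟩
        | exact Or.inr (Or.inl ⟨_, _, h0, h2, by decide⟩)
        | exact Or.inr (Or.inr ⟨_, _, h1, h2, by decide⟩)

theorem bigGraph_not_strongly (t k k' : ℕ) (hk' : 0 < k') (hkk : k' ≤ k) :
    ¬ StronglyColorable (bigGraph t k) k' := by
  classical
  let ι := Unit ⊕ (Fin k' × Fin 3)
  let e : ι × Fin k' → Vert k := fun ix =>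
    match ix with
    | (Sum.inl _, x) => Sum.inl (Fin.castLE hkk x)
    | (Sum.inr (i, q), x) => Sum.inr (Fin.castLE hkk i, q, Fin.castLE hkk x)
  have he : Function.Injective e := by
    rintro ⟨_ | ⟨i, q⟩, x⟩ ⟨_ | ⟨j, r⟩, y⟩ h
    · have h1 : (Sum.inl (Fin.castLE hkk x) : Vert k) = Sum.inl (Fin.castLE hkk y) := h
      have h2 := Fin.castLE_injective hkk (Sum.inl_injective h1)
      rw [h2]
    · exact absurd h (by simp [e])
    · exact absurd h (by simp [e])
    · have h1 : (Sum.inr (Fin.castLE hkk i, q, Fin.castLE hkk x) : Vert k) =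
        Sum.inr (Fin.castLE hkk j, r, Fin.castLE hkk y) := h
      have h2 := Sum.inr_injective h1
      simp only [Prod.mk.injEq] at h2
      obtain ⟨h3, h4, h5⟩ := h2
      rw [Fin.castLE_injective hkk h3, h4, Fin.castLE_injective hkk h5]
  refine not_stronglyColorable (bigGraph t k) k' hk' e he ?_
  intro c
  set i : Fin k' := c (Sum.inl ()) with hi
  let x : Fin 3 → Fin k' := fun q => c (Sum.inr (i, q))
  by_cases hleaf : ∃ q : Fin 3, cls t q (x q) = none
  · obtain ⟨q, hq⟩ := hleaf
    refine ⟨Sum.inl (), Sum.inr (i, q), by simp, ?_⟩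
    change (bigGraph t k).Adj (Sum.inl (Fin.castLE hkk i))
      (Sum.inr (Fin.castLE hkk i, q, Fin.castLE hkk (x q)))
    rw [adj_inl_inr]
    exact ⟨rfl, by simpa using hq⟩
  · push Not at hleaf
    have key : ∀ q r : Fin 3, q ≠ r → (∃ c d : ZMod 7, cls t q (x q) = some c ∧
        cls t r (x r) = some d ∧ (d = c + 1 ∨ c = d + 1)) →
        ∃ i j : ι, i ≠ j ∧ (bigGraph t k).Adj (e (i, c i)) (e (j, c j)) := by
      intro q r hqr hcd
      refine ⟨Sum.inr (i, q), Sum.inr (i, r), ?_, ?_⟩
      · intro h
        have := Sum.inr_injective h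
        simp only [Prod.mk.injEq, true_and] at this
        exact hqr this
      · change (bigGraph t k).Adj (Sum.inr (Fin.castLE hkk i, q, Fin.castLE hkk (x q)))
          (Sum.inr (Fin.castLE hkk i, r, Fin.castLE hkk (x r)))
        rw [adj_inr_inr]
        exact ⟨rfl, by simpa using hcd⟩
    rcases exists_adj_of_cls (hleaf 0) (hleaf 1) (hleaf 2) with h | h | h
    · exact key 0 1 (by decide) h
    · exact key 0 2 (by decide) h
    · exact key 1 2 (by decide) h

/-! ### Counting the classes -/

/-- The part containing a class. -/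
def qOf (c : ZMod 7) : Fin 3 :=
  if c = 0 ∨ c = 2 then 0 else if c = 4 ∨ c = 6 then 1 else 2

/-- The offset (in units of `t`) of a class in its part. -/
def off (c : ZMod 7) : ℕ :=
  if c = 0 ∨ c = 4 ∨ c = 1 then 0 else if c = 2 ∨ c = 6 ∨ c = 3 then 1 else 2

lemma cls_eq_some {t : ℕ} {q : Fin 3} {x : ℕ} {c : ZMod 7} (h : cls t q x = some c) :
    q = qOf c ∧ off c * t ≤ x ∧ x < off c * t + t := by
  obtain ⟨o0, o1, o2, o3, o4, o5, o6⟩ : off 0 = 0 ∧ off 1 = 0 ∧ off 2 = 1 ∧ off 3 = 1 ∧
    off 4 = 0 ∧ off 5 = 2 ∧ off 6 = 1 := by decide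
  fin_cases q
  all_goals
    simp only [cls] at h
    split_ifs at h
    all_goals
      simp only [Option.some.injEq] at h
      subst h
      refine ⟨by decide, ?_, ?_⟩
      all_goals
        first
        | rw [o0]
        | rw [o1]
        | rw [o2]
        | rw [o3]
        | rw [o4]
        | rw [o5]
        | rw [o6]
        omega

lemma cls_eq_none {t : ℕ} {q : Fin 3} {x : ℕ} (h : cls t q x = none) :
    (q = 0 ∧ 2 * t ≤ x) ∨ (q = 1 ∧ 2 * t ≤ x) ∨ (q = 2 ∧ 3 * t ≤ x) := by
  fin_cases q
  · simp only [cls] at h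
    split_ifs at h with h1 h2
    exact Or.inl ⟨rfl, by omega⟩
  · simp only [cls] at h
    split_ifs at h with h1 h2
    exact Or.inr (Or.inl ⟨rfl, by omega⟩)
  · simp only [cls] at h
    split_ifs at h with h1 h2 h3
    exact Or.inr (Or.inr ⟨rfl, by omega⟩)

open Classical in
/-- The vertices of gadget `i` in the class `c`. -/
noncomputable def classSet (t k : ℕ) (i : Fin k) (c : ZMod 7) : Finset (Vert k) :=
  Finset.univ.filter (fun v => ∃ w : Fin k × Fin 3 × Fin k, v = Sum.inr w ∧ w.1 = i ∧
    cls t w.2.1 w.2.2 = some c)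

open Classical in
/-- The leaves of gadget `i`. -/
noncomputable def leafSet (t k : ℕ) (i : Fin k) : Finset (Vert k) :=
  Finset.univ.filter (fun v => ∃ w : Fin k × Fin 3 × Fin k, v = Sum.inr w ∧ w.1 = i ∧
    cls t w.2.1 w.2.2 = none)

lemma card_classSet_le (t k : ℕ) (i : Fin k) (c : ZMod 7) : (classSet t k i c).card ≤ t := by
  classical
  have h : (classSet t k i c).card ≤ (Finset.range t).card := by
    refine Finset.card_le_card_of_injOn
      (fun v => match v with
        | Sum.inl _ => 0
        | Sum.inr w => (w.2.2 : ℕ) - off c * t) ?_ ?_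
    · intro v hv
      simp only [classSet, Finset.coe_filter, Finset.mem_univ, true_and, Set.mem_ofPred_eq] at hv
      obtain ⟨w, rfl, hw, hc⟩ := hv
      obtain ⟨_, h2, h3⟩ := cls_eq_some hc
      simp only [Finset.coe_range, Set.mem_Iio]
      omega
    · intro v hv v' hv' hvv
      simp only [classSet, Finset.coe_filter, Finset.mem_univ, true_and, Set.mem_ofPred_eq] at hv hv'
      obtain ⟨⟨a, b, x⟩, rfl, hw, hc⟩ := hv
      obtain ⟨⟨a', b', x'⟩, rfl, hw', hc'⟩ := hv'
      obtain ⟨h1, h2, h3⟩ := cls_eq_some hc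
      obtain ⟨h1', h2', h3'⟩ := cls_eq_some hc'
      simp only at hw hw' h1 h1' h2 h2' h3 h3' hvv
      subst hw hw'
      have hx : x = x' := by
        apply Fin.ext
        omega
      rw [h1, h1', hx]
  simpa using h

lemma card_leafSet_le (t k : ℕ) (hk : 3 * t ≤ k) (i : Fin k) :
    (leafSet t k i).card ≤ 3 * k - 7 * t := by
  classical
  have h : (leafSet t k i).card ≤ (Finset.range (3 * k - 7 * t)).card := by
    refine Finset.card_le_card_of_injOn
      (fun v => match v with
        | Sum.inl _ => 0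
        | Sum.inr w => if w.2.1 = 0 then (w.2.2 : ℕ) - 2 * t else
            if w.2.1 = 1 then (k - 2 * t) + ((w.2.2 : ℕ) - 2 * t) else
            2 * (k - 2 * t) + ((w.2.2 : ℕ) - 3 * t)) ?_ ?_
    · intro v hv
      simp only [leafSet, Finset.coe_filter, Finset.mem_univ, true_and, Set.mem_ofPred_eq] at hv
      obtain ⟨⟨a, b, x⟩, rfl, hw, hc⟩ := hv
      have hx := x.2
      simp only [Finset.coe_range, Set.mem_Iio]
      rcases cls_eq_none hc with ⟨h1, h2⟩ | ⟨h1, h2⟩ | ⟨h1, h2⟩
      all_goals
        simp only at h1 h2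
        subst h1
        simp
        omega
    · intro v hv v' hv' hvv
      simp only [leafSet, Finset.coe_filter, Finset.mem_univ, true_and, Set.mem_ofPred_eq] at hv hv'
      obtain ⟨⟨a, b, x⟩, rfl, hw, hc⟩ := hv
      obtain ⟨⟨a', b', x'⟩, rfl, hw', hc'⟩ := hv'
      have hx := x.2
      have hx' := x'.2
      simp only at hw hw'
      subst hw hw'
      rcases cls_eq_none hc with ⟨h1, h2⟩ | ⟨h1, h2⟩ | ⟨h1, h2⟩
      all_goals
        rcases cls_eq_none hc' with ⟨h1', h2'⟩ | ⟨h1', h2'⟩ | ⟨h1', h2'⟩
        all_goals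
          simp only at h1 h2 h1' h2'
          subst h1 h1'
          simp at hvv
          first
          | (exfalso; omega)
          | (have hxx : x = x' := by
              apply Fin.ext
              omega
             rw [hxx])
  simpa using h

/-! ### Bicliques in the big graph -/

section biclique

variable {t k : ℕ}

lemma star_case (hk : 3 * t ≤ k) {A B : Finset (Vert k)} (hB : B.Nonempty)
    (hAB : ∀ a ∈ A, ∀ b ∈ B, (bigGraph t k).Adj a b) {i : Fin k} (hi : Sum.inl i ∈ A) :
    A.card + B.card ≤ 1 + (3 * k - 7 * t) := by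
  classical
  have hBsub : B ⊆ leafSet t k i := by
    intro b hb
    have h := hAB _ hi b hb
    rcases b with j | w
    · exact absurd h (by simp)
    · rw [adj_inl_inr] at h
      simp only [leafSet, Finset.mem_filter, Finset.mem_univ, true_and]
      exact ⟨w, rfl, h.1.symm, h.2⟩
  have hAsub : A ⊆ {Sum.inl i} := by
    obtain ⟨b0, hb0⟩ := hB
    have h0 := hAB _ hi b0 hb0
    intro a ha
    have h := hAB a ha b0 hb0
    rcases b0 with j | w
    · exact absurd h0 (by simp)
    · rw [adj_inl_inr] at h0
      rcases a with j | v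
      · rw [adj_inl_inr] at h
        rw [Finset.mem_singleton, h.1, ← h0.1]
      · rw [adj_inr_inr] at h
        obtain ⟨_, c, d, _, h2, _⟩ := h
        rw [h0.2] at h2
        exact absurd h2 (by simp)
  have h1 := Finset.card_le_card hAsub
  have h2 := (Finset.card_le_card hBsub).trans (card_leafSet_le t k hk i)
  rw [Finset.card_singleton] at h1
  omega

lemma zmod7_aux : ∀ c c' d d' : ZMod 7, c ≠ c' → (d = c + 1 ∨ c = d + 1) →
    (d = c' + 1 ∨ c' = d + 1) → (d' = c + 1 ∨ c = d' + 1) → (d' = c' + 1 ∨ c' = d' + 1) →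
    d' = d := by
  decide

lemma cycle_case {A B : Finset (Vert k)} {v w : Fin k × Fin 3 × Fin k}
    (hAB : ∀ a ∈ A, ∀ b ∈ B, (bigGraph t k).Adj a b)
    (hA : ∀ i, Sum.inl i ∉ A) (hB : ∀ i, Sum.inl i ∉ B)
    (hv : Sum.inr v ∈ A) (hw : Sum.inr w ∈ B) : A.card + B.card ≤ 3 * t := by
  classical
  have h0 := hAB _ hv _ hw
  rw [adj_inr_inr] at h0
  obtain ⟨hvw, c, d, hc, hd, hcd⟩ := h0
  -- every vertex of `A` lies in gadget `v.1`, in a class next to `d`
  have hA' : ∀ a ∈ A, ∃ c' : ZMod 7, (d = c' + 1 ∨ c' = d + 1) ∧ a ∈ classSet t k v.1 c' := by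
    intro a ha
    have h := hAB a ha _ hw
    rcases a with i | v'
    · exact absurd ha (hA i)
    · rw [adj_inr_inr] at h
      obtain ⟨h1, c', d', h2, h3, h4⟩ := h
      rw [hd] at h3
      obtain rfl : d = d' := by simpa using h3
      refine ⟨c', h4, ?_⟩
      simp only [classSet, Finset.mem_filter, Finset.mem_univ, true_and]
      exact ⟨v', rfl, h1.trans hvw.symm, h2⟩
  have hB' : ∀ b ∈ B, ∀ c' : ZMod 7, ∀ a ∈ A, a ∈ classSet t k v.1 c' →
      ∃ d' : ZMod 7, (d' = c' + 1 ∨ c' = d' + 1) ∧ b ∈ classSet t k v.1 d' := by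
    intro b hb c' a ha hac
    have h := hAB a ha b hb
    simp only [classSet, Finset.mem_filter, Finset.mem_univ, true_and] at hac
    obtain ⟨v', rfl, h1, h2⟩ := hac
    rcases b with i | w'
    · exact absurd hb (hB i)
    · rw [adj_inr_inr] at h
      obtain ⟨h3, c'', d', h4, h5, h6⟩ := h
      rw [h2] at h4
      obtain rfl : c' = c'' := by simpa using h4
      refine ⟨d', h6, ?_⟩
      simp only [classSet, Finset.mem_filter, Finset.mem_univ, true_and]
      exact ⟨w', rfl, h3.symm.trans h1, h5⟩
  have hvc : Sum.inr v ∈ classSet t k v.1 c := by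
    simp only [classSet, Finset.mem_filter, Finset.mem_univ, true_and]
    exact ⟨v, rfl, rfl, hc⟩
  have two : ∀ (S : Finset (Vert k)) (e : ZMod 7),
      (∀ s ∈ S, ∃ f : ZMod 7, (e = f + 1 ∨ f = e + 1) ∧ s ∈ classSet t k v.1 f) →
      S.card ≤ 2 * t := by
    intro S e hS
    have hsub : S ⊆ classSet t k v.1 (e - 1) ∪ classSet t k v.1 (e + 1) := by
      intro s hs
      obtain ⟨f, hf, hsf⟩ := hS s hs
      rw [Finset.mem_union]
      rcases hf with hf | hf
      · left
        rw [hf, add_sub_cancel_right]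
        exact hsf
      · right
        rw [← hf]
        exact hsf
    have h1 := Finset.card_le_card hsub
    have h2 := Finset.card_union_le (classSet t k v.1 (e - 1)) (classSet t k v.1 (e + 1))
    have h3 := card_classSet_le t k v.1 (e - 1)
    have h4 := card_classSet_le t k v.1 (e + 1)
    omega
  by_cases hall : A ⊆ classSet t k v.1 c
  · have h1 := (Finset.card_le_card hall).trans (card_classSet_le t k v.1 c)
    have h2 : B.card ≤ 2 * t := by
      refine two B c ?_
      intro b hb
      obtain ⟨d', hd', hbd⟩ := hB' b hb c _ hv hvc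
      exact ⟨d', hd'.symm, hbd⟩
    omega
  · rw [Finset.not_subset] at hall
    obtain ⟨a, ha, hac⟩ := hall
    obtain ⟨c', hc', hac'⟩ := hA' a ha
    have hne : c ≠ c' := by
      rintro rfl
      exact hac hac'
    have hBsub : B ⊆ classSet t k v.1 d := by
      intro b hb
      obtain ⟨d1, hd1, hbd1⟩ := hB' b hb c _ hv hvc
      obtain ⟨d2, hd2, hbd2⟩ := hB' b hb c' _ ha hac'
      have h12 : d1 = d2 := by
        simp only [classSet, Finset.mem_filter, Finset.mem_univ, true_and] at hbd1 hbd2
        obtain ⟨w1, rfl, _, h1⟩ := hbd1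
        obtain ⟨w2, hw2, _, h2⟩ := hbd2
        have := Sum.inr_injective hw2
        subst this
        rw [h1] at h2
        simpa using h2
      subst h12
      have := zmod7_aux c c' d d1 hne hcd hc' hd1 hd2
      rw [← this]
      exact hbd1
    have h1 := (Finset.card_le_card hBsub).trans (card_classSet_le t k v.1 d)
    have h2 : A.card ≤ 2 * t := two A d hA'
    omega

lemma biclique_bound (hk : 3 * t ≤ k) (hs : 1 + (3 * k - 7 * t) ≤ 3 * t)
    {A B : Finset (Vert k)} (hA : A.Nonempty) (hB : B.Nonempty)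
    (hAB : ∀ a ∈ A, ∀ b ∈ B, (bigGraph t k).Adj a b) : A.card + B.card ≤ 3 * t := by
  by_cases h1 : ∃ i, Sum.inl i ∈ A
  · obtain ⟨i, hi⟩ := h1
    exact (star_case hk hB hAB hi).trans hs
  · by_cases h2 : ∃ i, Sum.inl i ∈ B
    · obtain ⟨i, hi⟩ := h2
      rw [Nat.add_comm]
      exact (star_case hk hA (fun b hb a ha => (hAB a ha b hb).symm) hi).trans hs
    · push Not at h1 h2
      obtain ⟨a, ha⟩ := hA
      obtain ⟨b, hb⟩ := hB
      rcases a with i | v
      · exact absurd ha (h1 i)
      · rcases b with i | w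
        · exact absurd hb (h2 i)
        · exact cycle_case hAB h1 h2 ha hb

end biclique

/-- Every biclique gives a pair of vertex sets. -/
lemma isContained_biclique_le {t k : ℕ} (hk : 3 * t ≤ k) (hs : 1 + (3 * k - 7 * t) ≤ 3 * t)
    {a b : ℕ} (ha : 1 ≤ a) (hb : 1 ≤ b)
    (h : (completeBipartiteGraph (Fin a) (Fin b)).IsContained (bigGraph t k)) :
    a + b ≤ 3 * t := by
  classical
  obtain ⟨f⟩ := h
  have hf : ∀ x y, f x = f y → x = y := fun x y h => f.injective h
  let A : Finset (Vert k) := Finset.univ.image (fun x : Fin a => f (Sum.inl x))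
  let B : Finset (Vert k) := Finset.univ.image (fun x : Fin b => f (Sum.inr x))
  have hAcard : A.card = a := by
    rw [Finset.card_image_of_injective (f := fun x : Fin a => f (Sum.inl x)) _
      (fun x y hxy => Sum.inl_injective (hf _ _ hxy))]
    simp
  have hBcard : B.card = b := by
    rw [Finset.card_image_of_injective (f := fun x : Fin b => f (Sum.inr x)) _
      (fun x y hxy => Sum.inr_injective (hf _ _ hxy))]
    simp
  have hA : A.Nonempty := by
    rw [← Finset.card_pos, hAcard]; omega
  have hB : B.Nonempty := by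
    rw [← Finset.card_pos, hBcard]; omega
  have hAB : ∀ a ∈ A, ∀ b ∈ B, (bigGraph t k).Adj a b := by
    intro x hx y hy
    simp only [A, Finset.mem_image, Finset.mem_univ, true_and] at hx
    simp only [B, Finset.mem_image, Finset.mem_univ, true_and] at hy
    obtain ⟨x', rfl⟩ := hx
    obtain ⟨y', rfl⟩ := hy
    exact f.toHom.map_adj (by simp)
  have := biclique_bound hk hs hA hB hAB
  rw [hAcard, hBcard] at this
  exact this

/-- The star around a centre. -/
lemma star_isContained (u : ℕ) :
    (completeBipartiteGraph (Fin 1) (Fin (9 * u + 2))).IsContained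
      (bigGraph (3 * u + 1) (10 * u + 3)) := by
  let leaf : Fin (9 * u + 2) → Fin 3 × Fin (10 * u + 3) := fun y =>
    if h1 : (y : ℕ) < 4 * u + 1 then (0, ⟨(y : ℕ) + 2 * (3 * u + 1), by omega⟩)
    else if h2 : (y : ℕ) < 8 * u + 2 then
      (1, ⟨(y : ℕ) - (4 * u + 1) + 2 * (3 * u + 1), by omega⟩)
    else (2, ⟨(y : ℕ) - (8 * u + 2) + 3 * (3 * u + 1), by omega⟩)
  have hleaf : ∀ y, cls (3 * u + 1) (leaf y).1 (leaf y).2 = none := by
    intro y
    simp only [leaf]
    split_ifs with h1 h2
    · simp only [cls]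
      rw [if_neg (by omega), if_neg (by omega)]
    · simp only [cls]
      rw [if_neg (by omega), if_neg (by omega)]
    · simp only [cls]
      rw [if_neg (by omega), if_neg (by omega), if_neg (by omega)]
  have hinj : Function.Injective leaf := by
    intro y z hyz
    have hy := y.2
    have hz := z.2
    apply Fin.ext
    simp only [leaf] at hyz
    split_ifs at hyz
    all_goals
      simp only [Prod.mk.injEq, Fin.mk.injEq] at hyz
      omega
  let f : Fin 1 ⊕ Fin (9 * u + 2) → Vert (10 * u + 3) := fun v => match v with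
    | Sum.inl _ => Sum.inl 0
    | Sum.inr y => Sum.inr (0, leaf y)
  refine ⟨⟨⟨f, ?_⟩, ?_⟩⟩
  · rintro (x | x) (y | y) hxy
    · simp at hxy
    · change (bigGraph _ _).Adj (Sum.inl 0) (Sum.inr (0, leaf y))
      rw [adj_inl_inr]
      exact ⟨rfl, hleaf y⟩
    · change (bigGraph _ _).Adj (Sum.inr (0, leaf x)) (Sum.inl 0)
      rw [adj_inr_inl]
      exact ⟨rfl, hleaf x⟩
    · simp at hxy
  · rintro (x | x) (y | y) hxy
    · rw [Subsingleton.elim x y]
    · exact absurd hxy (by simp [f])
    · exact absurd hxy (by simp [f])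
    · have h1 : (Sum.inr ((0 : Fin (10 * u + 3)), leaf x) : Vert (10 * u + 3)) =
        Sum.inr (0, leaf y) := hxy
      have h2 := Sum.inr_injective h1
      simp only [Prod.mk.injEq, true_and] at h2
      rw [hinj h2]

theorem bicliqueNumber_eq (u : ℕ) :
    bicliqueNumber (bigGraph (3 * u + 1) (10 * u + 3)) = 9 * u + 3 := by
  have hub : ∀ m ∈ ({1} ∪ {m : ℕ | ∃ a b : ℕ, 1 ≤ a ∧ 1 ≤ b ∧ a + b = m ∧
      (completeBipartiteGraph (Fin a) (Fin b)).IsContained
        (bigGraph (3 * u + 1) (10 * u + 3))} : Set ℕ), m ≤ 9 * u + 3 := by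
    rintro m (hm | ⟨a, b, ha, hb, rfl, h⟩)
    · rw [Set.mem_singleton_iff] at hm
      omega
    · have := isContained_biclique_le (by omega) (by omega) ha hb h
      omega
  apply le_antisymm
  · exact csSup_le ⟨1, Or.inl rfl⟩ hub
  · refine le_csSup ⟨9 * u + 3, hub⟩ (Or.inr ⟨1, 9 * u + 2, by omega, by omega, by omega, ?_⟩)
    exact star_isContained u

lemma stronglyColorable_card {V : Type} [Fintype V] (G : SimpleGraph V)
    (hV : 0 < Fintype.card V) : StronglyColorable G (Fintype.card V) := by
  intro p _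
  have h1 : numParts (Fintype.card V) (Fintype.card V) = 1 := by
    unfold numParts
    exact Nat.div_eq_of_lt_le (by omega) (by omega)
  refine (SimpleGraph.colorable_of_fintype _).mono ?_
  rw [Fintype.card_sum, Fintype.card_fin, h1]
  omega

theorem result (u : ℕ) : ∃ (V : Type) (_ : Fintype V) (G : SimpleGraph V),
    bicliqueNumber G = 9 * u + 3 ∧ 10 * u + 4 ≤ strongChromaticNumber G := by
  refine ⟨Vert (10 * u + 3), inferInstance, bigGraph (3 * u + 1) (10 * u + 3),
    bicliqueNumber_eq u, ?_⟩
  refine le_csInf ⟨_, ?_, stronglyColorable_card _ ?_⟩ ?_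
  · simp
  · simp
  · rintro k ⟨hk, hs⟩
    by_contra hlt
    exact bigGraph_not_strongly _ _ k hk (by omega) hs

end Pool.Agent.Results.MP_44775e_co.StrongBiclique
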